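import Pool.Agent.KS6_71.PSQ.Defs

/-!
# Basic facts on parameterized squares
-/

open Finset

namespace Pool.Agent.KS6_71.PSQ

variable {α β : Type*}

lemma PEquiv.length_eq {x y : List α} (h : PEquiv x y) : x.length = y.length := by
  obtain ⟨f, rfl⟩ := h
  simp

lemma PEquiv.pat {x y : List α} (h : PEquiv x y) (a b : ℕ) :
    x[a]? = x[b]? ↔ y[a]? = y[b]? := by
  obtain ⟨f, rfl⟩ := h
  rw [List.getElem?_map, List.getElem?_map]
  exact (Option.map_injective f.injective).eq_iff.symm

/-- two strings with the same pattern of equalities are equivalent -/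
lemma pequiv_of_pat [Finite α] {x y : List α} (hlen : x.length = y.length)
    (h : ∀ a b, a < x.length → b < x.length → (x[a]? = x[b]? ↔ y[a]? = y[b]?)) : PEquiv x y := by
  classical
  let _ : Fintype α := Fintype.ofFinite α
  have hx : ∀ a : {a // a ∈ x}, x.idxOf a.1 < x.length := fun a => List.idxOf_lt_length_of_mem a.2
  let g : {a // a ∈ x} → {b // b ∈ y} := fun a =>
    ⟨y[x.idxOf a.1]'(by rw [← hlen]; exact hx a), List.getElem_mem _⟩
  have hg : ∀ t (ht : t < x.length), (g ⟨x[t], List.getElem_mem ht⟩).1 = y[t]'(by omega) := by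
    intro t ht
    have h1 : x.idxOf x[t] < x.length := hx ⟨x[t], List.getElem_mem ht⟩
    have h2 : x[x.idxOf x[t]]? = x[t]? := by
      rw [List.getElem?_eq_getElem h1, List.getElem?_eq_getElem ht, List.getElem_idxOf]
    have h3 := (h _ _ h1 ht).1 h2
    rw [List.getElem?_eq_getElem (by omega), List.getElem?_eq_getElem (by omega)] at h3
    exact Option.some.inj h3
  have hbij : Function.Bijective g := by
    constructor
    · rintro ⟨a, ha⟩ ⟨b, hb⟩ hab
      obtain ⟨i, hi, rfl⟩ := List.getElem_of_mem ha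
      obtain ⟨j, hj, rfl⟩ := List.getElem_of_mem hb
      have h1 := congrArg Subtype.val hab
      rw [hg i hi, hg j hj] at h1
      have h2 : y[i]? = y[j]? := by
        rw [List.getElem?_eq_getElem (by omega), List.getElem?_eq_getElem (by omega), h1]
      have h3 := (h i j hi hj).2 h2
      rw [List.getElem?_eq_getElem hi, List.getElem?_eq_getElem hj] at h3
      exact Subtype.ext (Option.some.inj h3)
    · rintro ⟨b, hb⟩
      obtain ⟨j, hj, rfl⟩ := List.getElem_of_mem hb
      exact ⟨⟨x[j]'(by omega), List.getElem_mem _⟩, Subtype.ext (hg j (by omega))⟩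
  let e : {a // a ∈ x} ≃ {b // b ∈ y} := Equiv.ofBijective g hbij
  refine ⟨e.extendSubtype, ?_⟩
  apply List.ext_getElem
  · simpa using hlen
  · intro t h1 h2
    rw [List.length_map] at h1
    rw [List.getElem_map, Equiv.extendSubtype_apply_of_mem e _ (List.getElem_mem h1)]
    exact hg t h1

lemma infix_iff (w s : List α) :
    w <:+: s ↔ ∃ i, i + w.length ≤ s.length ∧ w = (s.drop i).take w.length := by
  constructor
  · rintro ⟨a, b, rfl⟩
    refine ⟨a.length, by simp, ?_⟩
    simp
  · rintro ⟨i, hi, h⟩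
    rw [h]
    exact (List.take_prefix _ _).isInfix.trans (List.drop_suffix _ _).isInfix

lemma finite_squares (s : List α) : {w | IsPSquare w ∧ w <:+: s}.Finite := by
  classical
  apply Set.Finite.subset (s.sublists.toFinset.finite_toSet)
  rintro w ⟨_, h⟩
  simp only [List.coe_toFinset, List.mem_sublists, Set.mem_ofPred_eq]
  exact h.sublist

lemma mk_eq_iff (x y : List α) :
    (Quotient.mk (peSetoid α) x = Quotient.mk (peSetoid α) y) ↔ PEquiv x y := Quotient.eq

/-- upper bounds for `PS` -/
lemma PS_le (s : List α) (C : Finset β) (R : List α → β → Prop)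
    (h1 : ∀ w, IsPSquare w → w <:+: s → ∃ c ∈ C, R w c)
    (h2 : ∀ w w' c, IsPSquare w → w <:+: s → IsPSquare w' → w' <:+: s → R w c → R w' c →
      PEquiv w w') : PS s ≤ C.card := by
  classical
  unfold PS
  rw [← Set.ncard_coe_finset]
  have hch : ∀ q ∈ (Quotient.mk (peSetoid α)) '' {w | IsPSquare w ∧ w <:+: s},
      ∃ c : β, c ∈ C ∧ ∃ w, IsPSquare w ∧ w <:+: s ∧ Quotient.mk (peSetoid α) w = q ∧ R w c := by
    rintro q ⟨w, ⟨hw, hws⟩, rfl⟩
    obtain ⟨c, hc, hR⟩ := h1 w hw hws
    exact ⟨c, hc, w, hw, hws, rfl, hR⟩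
  rcases isEmpty_or_nonempty β with hβ | hβ
  · have : (Quotient.mk (peSetoid α)) '' {w | IsPSquare w ∧ w <:+: s} = ∅ := by
      rw [Set.eq_empty_iff_forall_notMem]
      intro q hq
      obtain ⟨c, _⟩ := hch q hq
      exact hβ.elim c
    rw [this]
    simp
  · have hch' : ∀ q, ∃ c : β, q ∈ (Quotient.mk (peSetoid α)) '' {w | IsPSquare w ∧ w <:+: s} →
        c ∈ C ∧ ∃ w, IsPSquare w ∧ w <:+: s ∧ Quotient.mk (peSetoid α) w = q ∧ R w c := by
      intro q
      by_cases hq : q ∈ (Quotient.mk (peSetoid α)) '' {w | IsPSquare w ∧ w <:+: s}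
      · obtain ⟨c, hc⟩ := hch q hq
        exact ⟨c, fun _ => hc⟩
      · exact ⟨Classical.arbitrary β, fun h => absurd h hq⟩
    choose f hf using hch'
    apply Set.ncard_le_ncard_of_injOn f
    · intro q hq
      exact (hf q hq).1
    · intro q hq q' hq' he
      obtain ⟨_, w, hw, hws, rfl, hR⟩ := hf q hq
      obtain ⟨_, w', hw', hws', rfl, hR'⟩ := hf q' hq'
      rw [← he] at hR'
      rw [mk_eq_iff]
      exact h2 w w' _ hw hws hw' hws' hR hR'

/-- lower bounds for `PS` -/
lemma le_PS {ι : Type*} (s : List α) (I : Finset ι) (W : ι → List α)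
    (h1 : ∀ i ∈ I, IsPSquare (W i) ∧ W i <:+: s)
    (h2 : ∀ i ∈ I, ∀ j ∈ I, PEquiv (W i) (W j) → i = j) : I.card ≤ PS s := by
  classical
  unfold PS
  rw [← Set.ncard_coe_finset]
  apply Set.ncard_le_ncard_of_injOn (fun i => Quotient.mk (peSetoid α) (W i))
    (ht := (finite_squares s).image _)
  · intro i hi
    exact ⟨W i, h1 i hi, rfl⟩
  · intro i hi j hj he
    simp only at he
    rw [mk_eq_iff] at he
    exact h2 i hi j hj he

/-- `PS` does not decrease under an injective renaming of the letters -/
lemma PS_le_map [Finite α] [Finite β] (s : List α) (f : α → β) (hf : Function.Injective f) :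
    PS s ≤ PS (s.map f) := by
  classical
  have hfin := (finite_squares s).image (Quotient.mk (peSetoid α))
  have hch : ∀ q : Quotient (peSetoid α), ∃ w : List α,
      q ∈ (Quotient.mk (peSetoid α)) '' {w | IsPSquare w ∧ w <:+: s} →
      IsPSquare w ∧ w <:+: s ∧ Quotient.mk (peSetoid α) w = q := by
    intro q
    by_cases hq : q ∈ (Quotient.mk (peSetoid α)) '' {w | IsPSquare w ∧ w <:+: s}
    · obtain ⟨w, ⟨h1, h2⟩, h3⟩ := hq
      exact ⟨w, fun _ => ⟨h1, h2, h3⟩⟩
    · exact ⟨[], fun h => absurd h hq⟩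
  choose W hW using hch
  have key : ∀ x y : List α, PEquiv x y ↔ PEquiv (x.map f) (y.map f) := by
    intro x y
    constructor
    · intro h
      apply pequiv_of_pat
      · simpa using h.length_eq
      · intro a b _ _
        rw [List.getElem?_map, List.getElem?_map, List.getElem?_map, List.getElem?_map,
          (Option.map_injective hf).eq_iff, (Option.map_injective hf).eq_iff]
        exact h.pat a b
    · intro h
      apply pequiv_of_pat
      · simpa using h.length_eq
      · intro a b _ _
        have := h.pat a b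
        rwa [List.getElem?_map, List.getElem?_map, List.getElem?_map, List.getElem?_map,
          (Option.map_injective hf).eq_iff, (Option.map_injective hf).eq_iff] at this
  have h := le_PS (s.map f) hfin.toFinset (fun q => (W q).map f) (by
      intro q hq
      rw [Set.Finite.mem_toFinset] at hq
      obtain ⟨⟨x, y, hx, hw, hxy⟩, h2, h3⟩ := hW q hq
      refine ⟨⟨x.map f, y.map f, by simpa using hx, ?_, (key x y).1 hxy⟩, ?_⟩
      · change (W q).map f = _
        rw [hw, List.map_append]
      · exact h2.map f)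
    (by
      intro q hq q' hq' he
      rw [Set.Finite.mem_toFinset] at hq hq'
      rw [← key, ← mk_eq_iff, (hW q hq).2.2, (hW q' hq').2.2] at he
      exact he)
  unfold PS at h ⊢
  rwa [Set.ncard_eq_toFinset_card _ hfin]

/-- `PS` does not decrease if the string is extended -/
lemma PS_mono (s t : List α) (h : s <:+: t) : PS s ≤ PS t := by
  unfold PS
  apply Set.ncard_le_ncard (ht := (finite_squares t).image _)
  apply Set.image_mono
  rintro w ⟨h1, h2⟩
  exact ⟨h1, h2.trans h⟩

end Pool.Agent.KS6_71.PSQ
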