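import Pool.Agent.KS6_71.PSQ.Rauzy

/-!
# A word of length `m` has at most `m` factors of the form `y c y` with a letter `c`
-/

open Finset

namespace Pool.Agent.KS6_71.PSQ

variable {α : Type*} [LinearOrder α]

open Classical in
/-- the factors of the form `y c y`, `c` a letter, of the word `d 0, …, d (m - 1)` -/
noncomputable def Z (d : ℕ → α) (m : ℕ) : Finset (List α) :=
  ((range m).biUnion fun l => F d m (l + 1)).filter fun z =>
    ∃ k i, 1 ≤ k ∧ i + (2 * k - 1) ≤ m ∧ z = fac d i (2 * k - 1) ∧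
      ∀ a, a + 1 < k → d (i + a) = d (i + k + a)

lemma mem_Z (d : ℕ → α) (m : ℕ) (z : List α) : z ∈ Z d m ↔
    ∃ k i, 1 ≤ k ∧ i + (2 * k - 1) ≤ m ∧ z = fac d i (2 * k - 1) ∧
      ∀ a, a + 1 < k → d (i + a) = d (i + k + a) := by
  classical
  unfold Z
  rw [mem_filter]
  constructor
  · exact fun h => h.2
  · rintro ⟨k, i, hk, hi, hz, h⟩
    refine ⟨?_, k, i, hk, hi, hz, h⟩
    rw [mem_biUnion]
    refine ⟨2 * k - 2, ?_, ?_⟩
    · rw [mem_range]
      omega
    · have : 2 * k - 2 + 1 = 2 * k - 1 := by omega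
      rw [this, mem_F]
      exact ⟨i, hi, hz.symm⟩

open Classical in
/-- the shifts of `w` whose prefix of length `l` is a factor -/
noncomputable def T (d : ℕ → α) (m : ℕ) (w : ℕ → α) (p l : ℕ) : Finset ℕ :=
  (range p).filter fun j => fac w j l ∈ F d m l

lemma mem_T (d : ℕ → α) (m : ℕ) (w : ℕ → α) (p l j : ℕ) :
    j ∈ T d m w p l ↔ j < p ∧ fac w j l ∈ F d m l := by
  classical
  unfold T
  rw [mem_filter, mem_range]

/-- the representation of a factor `y c y` -/
def Rep (d : ℕ → α) (m : ℕ) (z : List α) (w : ℕ → α) (p j k : ℕ) : Prop :=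
  IsLyn w p ∧ p ∣ k ∧ 1 ≤ k ∧ z = fac w j (2 * k - 1) ∧ j ∈ T d m w p (2 * k - 1)

lemma exists_rep (d : ℕ → α) (m : ℕ) (z : List α) (hz : z ∈ Z d m) :
    ∃ w p j k, Rep d m z w p j k := by
  rw [mem_Z] at hz
  obtain ⟨k, i, hk, hi, rfl, hper⟩ := hz
  set v : ℕ → α := fun t => d (i + t % k) with hv
  obtain ⟨w, p, j, hw, hj, hpk, hvw⟩ := exists_lyn v k hk (by
    intro t
    rw [hv]
    simp)
  have h1 : fac d i (2 * k - 1) = fac w j (2 * k - 1) := by
    rw [fac_eq_iff]
    intro t ht
    rw [← hvw, hv]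
    change d (i + t) = d (i + t % k)
    rcases Nat.lt_or_ge t k with h | h
    · rw [Nat.mod_eq_of_lt h]
    · have e : t % k = t - k := by
        rw [Nat.mod_eq_sub_mod h, Nat.mod_eq_of_lt (by omega)]
      rw [e, hper (t - k) (by omega)]
      congr 1
      omega
  refine ⟨w, p, j, k, hw, hpk, hk, h1, ?_⟩
  rw [mem_T]
  refine ⟨hj, ?_⟩
  rw [← h1, mem_F]
  exact ⟨i, hi, rfl⟩

/-- the rank of `j` in `T` -/
noncomputable def rk (d : ℕ → α) (m : ℕ) (w : ℕ → α) (p l j : ℕ) : ℕ :=
  ((T d m w p l).filter fun j' => j' < j).card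

lemma rk_lt (d : ℕ → α) (m : ℕ) (w : ℕ → α) (p l j : ℕ) (hj : j ∈ T d m w p l) :
    rk d m w p l j < (T d m w p l).card := by
  unfold rk
  apply Finset.card_lt_card
  rw [Finset.ssubset_iff_of_subset (Finset.filter_subset _ _)]
  exact ⟨j, hj, by simp⟩

lemma card_T_le (d : ℕ → α) (m : ℕ) (w : ℕ → α) (p l : ℕ) : (T d m w p l).card ≤ p := by
  classical
  unfold T
  calc _ ≤ (range p).card := Finset.card_filter_le _ _
    _ = p := Finset.card_range p

lemma rk_inj (d : ℕ → α) (m : ℕ) (w : ℕ → α) (p l j j' : ℕ) (hj : j ∈ T d m w p l)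
    (hj' : j' ∈ T d m w p l) (h : rk d m w p l j = rk d m w p l j') : j = j' := by
  have key : ∀ a b, a ∈ T d m w p l → a < b → rk d m w p l a < rk d m w p l b := by
    intro a b ha hab
    unfold rk
    apply Finset.card_lt_card
    rw [Finset.ssubset_iff_of_subset]
    · exact ⟨a, by simp [ha, hab], by simp⟩
    · intro x hx
      rw [mem_filter] at hx ⊢
      exact ⟨hx.1, lt_trans hx.2 hab⟩
  rcases lt_trichotomy j j' with h1 | h1 | h1
  · have := key j j' hj h1
    omega
  · exact h1
  · have := key j' j hj' h1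
    omega

/-- the covering argument -/
lemma circuit_mem (d : ℕ → α) (m : ℕ) (z : List α) (w : ℕ → α) (p j k : ℕ)
    (h : Rep d m z w p j k) (x : ℕ) :
    fac w x (2 * k - p + rk d m w p (2 * k - 1) j) ∈
      F d m (2 * k - p + rk d m w p (2 * k - 1) j) := by
  classical
  obtain ⟨hw, hpk, hk, _, hj⟩ := h
  have hp0 := hw.1
  have hpk' : p ≤ k := Nat.le_of_dvd (by omega) hpk
  set i0 := rk d m w p (2 * k - 1) j with hi0
  have h1 : i0 < (T d m w p (2 * k - 1)).card := rk_lt d m w p _ j hj
  have h2 := card_T_le d m w p (2 * k - 1)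
  -- the bad residues
  set x0 := x % p with hx0
  have hx0p : x0 < p := Nat.mod_lt _ hp0
  have hex : ∃ j' ∈ T d m w p (2 * k - 1), (x0 + (p - j')) % p < p - i0 := by
    by_contra hcon
    push Not at hcon
    have h3 : (T d m w p (2 * k - 1)).card ≤ ((range p).filter fun r => p - i0 ≤ r).card := by
      apply Finset.card_le_card_of_injOn (fun j' => (x0 + (p - j')) % p)
      · intro j' hj'
        have := hcon j' hj'
        simp only [Finset.coe_filter, mem_range, Set.mem_ofPred_eq]
        exact ⟨Nat.mod_lt _ hp0, this⟩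
      · intro a ha b hb hab
        have ha' : a < p := ((mem_T _ _ _ _ _ _).1 ha).1
        have hb' : b < p := ((mem_T _ _ _ _ _ _).1 hb).1
        simp only at hab
        have h4 : (x0 + (p - a) + (a + b)) % p = (x0 + (p - b) + (a + b)) % p :=
          Nat.ModEq.add_right (a + b) hab
        have e1 : x0 + (p - a) + (a + b) = x0 + b + p := by omega
        have e2 : x0 + (p - b) + (a + b) = x0 + a + p := by omega
        rw [e1, e2, Nat.add_mod_right, Nat.add_mod_right] at h4
        have h5 : b % p = a % p := by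
          have : x0 + b ≡ x0 + a [MOD p] := h4
          exact Nat.ModEq.add_left_cancel' x0 this
        rw [Nat.mod_eq_of_lt ha', Nat.mod_eq_of_lt hb'] at h5
        exact h5.symm
    have h4 : ((range p).filter fun r => p - i0 ≤ r).card ≤ i0 := by
      have : ((range p).filter fun r => p - i0 ≤ r) ⊆ (Finset.Ico (p - i0) p) := by
        intro r hr
        rw [mem_filter, mem_range] at hr
        rw [Finset.mem_Ico]
        exact ⟨hr.2, hr.1⟩
      calc _ ≤ (Finset.Ico (p - i0) p).card := Finset.card_le_card this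
        _ = p - (p - i0) := Nat.card_Ico _ _
        _ ≤ i0 := by omega
    omega
  obtain ⟨j', hj', hδ⟩ := hex
  set δ := (x0 + (p - j')) % p with hδdef
  rw [mem_T] at hj'
  obtain ⟨hj'p, hj'F⟩ := hj'
  rw [mem_F] at hj'F
  obtain ⟨a, ha, hfa⟩ := hj'F
  rw [fac_eq_iff] at hfa
  rw [mem_F]
  refine ⟨a + δ, by omega, ?_⟩
  rw [fac_eq_iff]
  intro t ht
  have e1 : a + δ + t = a + (δ + t) := by ring
  rw [e1, hfa (δ + t) (by omega)]
  apply per_congr hw.2.1
  -- `j' + (δ + t) ≡ x + t`
  have h5 : (j' + (δ + t)) % p = (x0 + t) % p := by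
    have e2 : j' + (δ + t) = δ + (j' + t) := by ring
    rw [e2, hδdef, Nat.mod_add_mod]
    have e3 : x0 + (p - j') + (j' + t) = x0 + t + p := by omega
    rw [e3, Nat.add_mod_right]
  rw [h5, hx0, Nat.mod_add_mod]

/-- A word of length `m` has at most `m` factors of the form `y c y`. -/
theorem card_Z_le (d : ℕ → α) (m : ℕ) : (Z d m).card ≤ m := by
  classical
  have hrep : ∀ z : Z d m, ∃ w p j k, Rep d m z w p j k := fun z => exists_rep d m z z.2
  choose W P J K hR using hrep
  let L : Z d m → ℕ := fun z => 2 * K z - P z + rk d m (W z) (P z) (2 * K z - 1) (J z)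
  let g : Z d m → List α := fun z => fac (W z) 0 (L z)
  have hpk : ∀ z, 0 < P z ∧ P z ≤ K z := by
    intro z
    obtain ⟨hw, hd, hk, _, _⟩ := hR z
    exact ⟨hw.1, Nat.le_of_dvd (by omega) hd⟩
  have hrk : ∀ z, rk d m (W z) (P z) (2 * K z - 1) (J z) < P z := by
    intro z
    obtain ⟨_, _, _, _, hj⟩ := hR z
    exact lt_of_lt_of_le (rk_lt d m _ _ _ _ hj) (card_T_le d m _ _ _)
  have hgF : ∀ z, g z ∈ F d m (L z) := by
    intro z
    exact circuit_mem d m z _ _ _ _ (hR z) 0
  have hL : ∀ z, 1 ≤ L z ∧ L z ≤ m := by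
    intro z
    have h1 := hgF z
    rw [mem_F] at h1
    obtain ⟨i, hi, _⟩ := h1
    have h2 := hpk z
    have h3 : L z = 2 * K z - P z + rk d m (W z) (P z) (2 * K z - 1) (J z) := rfl
    omega
  have hgM : ∀ z, g z ∈ (range m).biUnion fun l => M d m (l + 1) := by
    intro z
    rw [mem_biUnion]
    have h1 := hL z
    refine ⟨L z - 1, by rw [mem_range]; omega, ?_⟩
    have e : L z - 1 + 1 = L z := by omega
    rw [e, mem_M]
    have h2 := hpk z
    have h3 : L z = 2 * K z - P z + rk d m (W z) (P z) (2 * K z - 1) (J z) := rfl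
    refine ⟨W z, P z, (hR z).1, by omega, rfl, ?_⟩
    intro j
    exact circuit_mem d m z _ _ _ _ (hR z) j
  have hinj : Function.Injective g := by
    intro z z' hzz
    have hlen : L z = L z' := by
      have := congrArg List.length hzz
      simpa [g] using this
    have h1 := hpk z
    have h1' := hpk z'
    have h2 := hrk z
    have h2' := hrk z'
    have e : L z = 2 * K z - P z + rk d m (W z) (P z) (2 * K z - 1) (J z) := rfl
    have e' : L z' = 2 * K z' - P z' + rk d m (W z') (P z') (2 * K z' - 1) (J z') := rfl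
    have hzz' : fac (W z) 0 (L z) = fac (W z') 0 (L z) := by
      have : fac (W z) 0 (L z) = fac (W z') 0 (L z') := hzz
      rwa [← hlen] at this
    obtain ⟨hP, hW⟩ := lyn_unique (hR z).1 (hR z').1 (l := L z) (by omega) (by omega) hzz'
    obtain ⟨_, ⟨a, ha⟩, _, hz, hj⟩ := hR z
    obtain ⟨_, ⟨a', ha'⟩, _, hz', hj'⟩ := hR z'
    rw [← hP] at ha' h1' h2' e' hj'
    rw [← hW] at h2' e' hj' hz'
    set p := P z with hp
    set i := rk d m (W z) p (2 * K z - 1) (J z) with hi
    set i' := rk d m (W z) p (2 * K z' - 1) (J z') with hi'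
    have h3 : 2 * K z + i = 2 * K z' + i' := by omega
    have h4 : a = a' := by
      rw [ha, ha'] at h3
      have h5 : (i + p * (2 * a)) / p = (i' + p * (2 * a')) / p := by
        congr 1
        calc i + p * (2 * a) = 2 * (p * a) + i := by ring
          _ = 2 * (p * a') + i' := h3
          _ = i' + p * (2 * a') := by ring
      rw [Nat.add_mul_div_left _ _ h1.1, Nat.add_mul_div_left _ _ h1.1,
        Nat.div_eq_of_lt h2, Nat.div_eq_of_lt h2'] at h5
      omega
    have hK : K z = K z' := by rw [ha, ha', h4]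
    have hii : i = i' := by omega
    rw [← hK] at hj' hz'
    have hii' : rk d m (W z) p (2 * K z - 1) (J z) = rk d m (W z) p (2 * K z - 1) (J z') := by
      have : i' = rk d m (W z) p (2 * K z - 1) (J z') := by rw [hi', ← hK]
      rw [← this]
      exact hii
    have hJ := rk_inj d m (W z) p _ _ _ hj hj' hii'
    apply Subtype.ext
    rw [hz, hz', hJ]
  have h1 : (Z d m).card ≤ ((range m).biUnion fun l => M d m (l + 1)).card := by
    have h2 := Fintype.card_le_of_injective
      (fun z : Z d m => (⟨g z, hgM z⟩ : ((range m).biUnion fun l => M d m (l + 1) : Finset _)))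
      (fun z z' h => hinj (congrArg Subtype.val h))
    simpa using h2
  calc (Z d m).card ≤ ((range m).biUnion fun l => M d m (l + 1)).card := h1
    _ ≤ ∑ l ∈ range m, (M d m (l + 1)).card := Finset.card_biUnion_le
    _ ≤ m := sum_levels d m

end Pool.Agent.KS6_71.PSQ
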