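import Pool.Agent.KS6_71.PSQ.Basic
import Pool.Agent.KS6_71.PSQ.Gapped

/-!
# Binary strings have fewer classes of parameterized squares than letters
-/

open Finset

namespace Pool.Agent.KS6_71.PSQ

variable {α : Type*}

lemma psquare_half {w : List α} (h : IsPSquare w) : ∃ k, 1 ≤ k ∧ w.length = 2 * k ∧
    ∀ a b, a < k → b < k → (w[a]? = w[b]? ↔ w[k + a]? = w[k + b]?) := by
  obtain ⟨x, y, hx, rfl, hxy⟩ := h
  have hlen := hxy.length_eq
  have hx0 : 0 < x.length := List.length_pos_iff.2 hx
  refine ⟨x.length, hx0, by rw [List.length_append]; omega, ?_⟩
  intro a b ha hb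
  rw [List.getElem?_append_left ha, List.getElem?_append_left hb,
    List.getElem?_append_right (by omega), List.getElem?_append_right (by omega),
    Nat.add_sub_cancel_left, Nat.add_sub_cancel_left]
  exact hxy.pat a b

lemma psquare_of_half [Finite α] {w : List α} (k : ℕ) (hk : 1 ≤ k) (hw : w.length = 2 * k)
    (h : ∀ a b, a < k → b < k → (w[a]? = w[b]? ↔ w[k + a]? = w[k + b]?)) : IsPSquare w := by
  refine ⟨w.take k, w.drop k, ?_, (List.take_append_drop k w).symm, ?_⟩
  · intro he
    have := congrArg List.length he
    rw [List.length_take, List.length_nil] at this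
    omega
  · apply pequiv_of_pat
    · rw [List.length_take, List.length_drop]
      omega
    · intro a b ha hb
      rw [List.length_take] at ha hb
      rw [List.getElem?_take_of_lt (by omega), List.getElem?_take_of_lt (by omega),
        List.getElem?_drop, List.getElem?_drop]
      exact h a b (by omega) (by omega)

/-- adjacent letters are equal -/
def adj [DecidableEq α] (w : List α) (t : ℕ) : Bool := decide (w[t]? = w[t + 1]?)

lemma window_getElem? {s w : List α} {i : ℕ} (h : w = (s.drop i).take w.length) (t : ℕ)
    (ht : t < w.length) : w[t]? = s[i + t]? := by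
  conv_lhs => rw [h]
  rw [List.getElem?_take_of_lt ht, List.getElem?_drop]

theorem PS_binary [Finite α] (h2 : ∀ a b c : α, a = b ∨ b = c ∨ a = c) (s : List α)
    (hs : s ≠ []) : PS s < s.length := by
  classical
  have hs0 : 0 < s.length := List.length_pos_iff.2 hs
  have key : PS s ≤ (Z (adj s) (s.length - 1)).card := by
    apply PS_le s _ (fun w c => c = fac (adj w) 0 (w.length - 1))
    · intro w hw hws
      refine ⟨_, ?_, rfl⟩
      obtain ⟨k, hk, hlen, hpat⟩ := psquare_half hw
      obtain ⟨i, hi, hwi⟩ := (infix_iff w s).1 hws
      have hget := window_getElem? hwi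
      have hadj : ∀ t, t + 1 < w.length → adj w t = adj s (i + t) := by
        intro t ht
        unfold adj
        rw [hget t (by omega), hget (t + 1) ht]
        rfl
      rw [mem_Z]
      refine ⟨k, i, hk, by omega, ?_, ?_⟩
      · rw [hlen, fac_eq_iff]
        intro t ht
        rw [zero_add]
        exact hadj t (by omega)
      · intro a ha
        rw [← hadj a (by omega)]
        have e : i + k + a = i + (k + a) := by ring
        rw [e, ← hadj (k + a) (by omega)]
        unfold adj
        rw [decide_eq_decide]
        have := hpat a (a + 1) (by omega) ha
        rw [this]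
        rfl
    · intro w w' c hw hws hw' hws' hc hc'
      obtain ⟨k, hk, hlen, _⟩ := psquare_half hw
      obtain ⟨k', hk', hlen', _⟩ := psquare_half hw'
      have hll : w.length = w'.length := by
        have := congrArg List.length (hc.symm.trans hc')
        rw [fac_length, fac_length] at this
        omega
      have hadj : ∀ t, t + 1 < w.length → (w[t]? = w[t + 1]? ↔ w'[t]? = w'[t + 1]?) := by
        intro t ht
        have h3 := hc.symm.trans hc'
        rw [← hll, fac_eq_iff] at h3
        have h4 := h3 t (by omega)
        unfold adj at h4
        rw [zero_add] at h4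
        rwa [decide_eq_decide] at h4
      have htwo : ∀ (u : List α) (a b c : ℕ), a < u.length → b < u.length → c < u.length →
          u[a]? = u[b]? ∨ u[b]? = u[c]? ∨ u[a]? = u[c]? := by
        intro u a b c ha hb hc
        rw [List.getElem?_eq_getElem ha, List.getElem?_eq_getElem hb,
          List.getElem?_eq_getElem hc]
        rcases h2 u[a] u[b] u[c] with h | h | h
        · left; rw [h]
        · right; left; rw [h]
        · right; right; rw [h]
      have hstep : ∀ a b, a ≤ b → b < w.length → (w[a]? = w[b]? ↔ w'[a]? = w'[b]?) := by
        intro a b hab
        induction b, hab using Nat.le_induction with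
        | base => intro _; exact ⟨fun _ => rfl, fun _ => rfl⟩
        | succ b hab ih =>
          intro hb
          have i1 := ih (by omega)
          have i2 := hadj b hb
          have t1 := htwo w a b (b + 1) (by omega) (by omega) hb
          have t2 := htwo w' a b (b + 1) (by omega) (by omega) (by omega)
          constructor
          · intro h
            by_cases hab' : w[a]? = w[b]?
            · rw [← i1.1 hab', ] at *
              have : w[b]? = w[b + 1]? := by rw [← hab', h]
              rw [i1.1 hab']
              exact i2.1 this
            · have h5 : w[b]? ≠ w[b + 1]? := fun h6 => hab' (by rw [h, h6])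
              have h6 : w'[a]? ≠ w'[b]? := fun h7 => hab' (i1.2 h7)
              have h7 : w'[b]? ≠ w'[b + 1]? := fun h8 => h5 (i2.2 h8)
              rcases t2 with h8 | h8 | h8
              · exact absurd h8 h6
              · exact absurd h8 h7
              · exact h8
          · intro h
            by_cases hab' : w'[a]? = w'[b]?
            · have : w'[b]? = w'[b + 1]? := by rw [← hab', h]
              rw [i1.2 hab']
              exact i2.2 this
            · have h5 : w'[b]? ≠ w'[b + 1]? := fun h6 => hab' (by rw [h, h6])
              have h6 : w[a]? ≠ w[b]? := fun h7 => hab' (i1.1 h7)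
              have h7 : w[b]? ≠ w[b + 1]? := fun h8 => h5 (i2.1 h8)
              rcases t1 with h8 | h8 | h8
              · exact absurd h8 h6
              · exact absurd h8 h7
              · exact h8
      apply pequiv_of_pat hll
      intro a b ha hb
      rcases le_total a b with h | h
      · exact hstep a b h hb
      · have := hstep b a h ha
        rw [eq_comm, this, eq_comm]
  have h3 := card_Z_le (adj s) (s.length - 1)
  omega

end Pool.Agent.KS6_71.PSQ
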