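import Pool.Agent.KS6_71.PSQ.Binary

/-!
# A computable form of `PS`
-/

open Finset

namespace Pool.Agent.KS6_71.PSQ

variable {α β : Type*} [DecidableEq α] [DecidableEq β]

/-- the canonical form of a string: each letter is replaced by its first position -/
def code (w : List α) : List ℕ := w.map fun a => w.idxOf a

lemma idxOf_map' (f : α → β) (hf : Function.Injective f) (x : List α) (a : α) :
    (x.map f).idxOf (f a) = x.idxOf a := by
  induction x with
  | nil => simp
  | cons b x ih =>
    by_cases h : b = a
    · subst h
      rw [List.map_cons, List.idxOf_cons_self, List.idxOf_cons_self]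
    · have h' : f b ≠ f a := fun he => h (hf he)
      rw [List.map_cons, List.idxOf_cons_ne _ h, List.idxOf_cons_ne _ h', ih]

lemma code_getElem (w : List α) (t : ℕ) (h : t < w.length) :
    (code w)[t]? = some (w.idxOf w[t]) := by
  unfold code
  rw [List.getElem?_map, List.getElem?_eq_getElem h]
  rfl

lemma code_eq_iff [Finite α] (x y : List α) : code x = code y ↔ PEquiv x y := by
  constructor
  · intro h
    have hlen : x.length = y.length := by
      have := congrArg List.length h
      simpa [code] using this
    have key : ∀ (z : List α) (a b : ℕ) (ha : a < z.length) (hb : b < z.length),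
        (z[a]? = z[b]? ↔ (code z)[a]? = (code z)[b]?) := by
      intro z a b ha hb
      rw [code_getElem z a ha, code_getElem z b hb, List.getElem?_eq_getElem ha,
        List.getElem?_eq_getElem hb]
      constructor
      · intro he
        rw [Option.some.inj he]
      · intro he
        have h1 := Option.some.inj he
        have ia : z.idxOf z[a] < z.length := List.idxOf_lt_length_of_mem (List.getElem_mem ha)
        have ib : z.idxOf z[b] < z.length := List.idxOf_lt_length_of_mem (List.getElem_mem hb)
        have e1 : z[z.idxOf z[a]] = z[a] := List.getElem_idxOf ia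
        have e2 : z[z.idxOf z[b]] = z[b] := List.getElem_idxOf ib
        congr 1
        rw [← e1, ← e2]
        congr 1
    apply pequiv_of_pat hlen
    intro a b ha hb
    rw [key x a b ha hb, key y a b (by omega) (by omega), h]
  · rintro ⟨f, rfl⟩
    unfold code
    rw [List.map_map]
    apply List.map_congr_left
    intro a _
    simp only [Function.comp]
    rw [idxOf_map' f f.injective]

/-- the codes of the parameterized squares in `s` -/
def C (s : List α) : Finset (List ℕ) :=
  (range (s.length / 2)).biUnion fun k =>
    ((range (s.length + 1 - 2 * (k + 1))).filter fun i =>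
      code ((s.drop i).take (k + 1)) = code ((s.drop (i + (k + 1))).take (k + 1))).image
        fun i => code ((s.drop i).take (2 * (k + 1)))

omit [DecidableEq α] in
lemma take_two_mul (u : List α) (i k : ℕ) :
    (u.drop i).take (2 * k) = (u.drop i).take k ++ (u.drop (i + k)).take k := by
  rw [two_mul, List.take_add, List.drop_drop]

lemma mem_C [Finite α] (s : List α) (c : List ℕ) :
    c ∈ C s ↔ ∃ w, IsPSquare w ∧ w <:+: s ∧ code w = c := by
  unfold C
  simp only [mem_biUnion, mem_image, mem_filter, mem_range]
  constructor
  · rintro ⟨k, hk, i, ⟨hi, he⟩, rfl⟩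
    refine ⟨_, ?_, ?_, rfl⟩
    · refine ⟨(s.drop i).take (k + 1), (s.drop (i + (k + 1))).take (k + 1), ?_, take_two_mul _ _ _,
        (code_eq_iff _ _).1 he⟩
      intro h0
      have := congrArg List.length h0
      rw [List.length_take, List.length_drop, List.length_nil] at this
      omega
    · exact (List.take_prefix _ _).isInfix.trans (List.drop_suffix _ _).isInfix
  · rintro ⟨w, hw, hws, rfl⟩
    obtain ⟨x, y, hx, hwxy, hxy⟩ := hw
    have hx0 : 0 < x.length := List.length_pos_iff.2 hx
    have hlen := hxy.length_eq
    have hwlen : w.length = 2 * x.length := by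
      rw [hwxy, List.length_append]
      omega
    obtain ⟨i, hi, hwi⟩ := (infix_iff w s).1 hws
    have e : x.length - 1 + 1 = x.length := by omega
    refine ⟨x.length - 1, by omega, i, ⟨by omega, ?_⟩, ?_⟩
    · rw [e]
      have h1 : w = (s.drop i).take x.length ++ (s.drop (i + x.length)).take x.length := by
        rw [← take_two_mul, ← hwlen]
        exact hwi
      have hl1 : ((s.drop i).take x.length).length = x.length := by
        rw [List.length_take, List.length_drop]
        omega
      rw [hwxy] at h1
      obtain ⟨h2, h3⟩ := List.append_inj h1 hl1.symm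
      rw [← h2, ← h3, code_eq_iff]
      exact hxy
    · rw [e, ← hwlen, ← hwi]

theorem PS_eq [Finite α] (s : List α) : PS s = (C s).card := by
  apply le_antisymm
  · apply PS_le s (C s) (fun w c => code w = c)
    · intro w hw hws
      exact ⟨code w, (mem_C s _).2 ⟨w, hw, hws, rfl⟩, rfl⟩
    · intro w w' c _ _ _ _ h h'
      rw [← code_eq_iff, h, h']
  · have hch : ∀ c : List ℕ, ∃ w : List α, c ∈ C s → IsPSquare w ∧ w <:+: s ∧ code w = c := by
      intro c
      by_cases hc : c ∈ C s
      · obtain ⟨w, hw⟩ := (mem_C s c).1 hc
        exact ⟨w, fun _ => hw⟩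
      · exact ⟨[], fun h => absurd h hc⟩
    choose W hW using hch
    apply le_PS s (C s) W
    · intro c hc
      exact ⟨(hW c hc).1, (hW c hc).2.1⟩
    · intro c hc c' hc' he
      rw [← code_eq_iff, (hW c hc).2.2, (hW c' hc').2.2] at he
      exact he

end Pool.Agent.KS6_71.PSQ
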