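import Mathlib

/-!
# Parameterized squares
-/

namespace Pool.Agent.KS6_71.PSQ

variable {α : Type*}

/-- `x` and `y` are parameterized equivalent: some bijection of the alphabet maps `x` to `y`. -/
def PEquiv (x y : List α) : Prop := ∃ f : Equiv.Perm α, x.map f = y

/-- `w = x y` with `x` not empty and `x`, `y` parameterized equivalent -/
def IsPSquare (w : List α) : Prop := ∃ x y : List α, x ≠ [] ∧ w = x ++ y ∧ PEquiv x y

/-- parameterized equivalence as an equivalence relation -/
def peSetoid (α : Type*) : Setoid (List α) where
  r := PEquiv
  iseqv :=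
    { refl := fun x => ⟨1, by simp⟩
      symm := by
        rintro x y ⟨f, rfl⟩
        exact ⟨f⁻¹, by simp⟩
      trans := by
        rintro x y z ⟨f, rfl⟩ ⟨g, rfl⟩
        exact ⟨g * f, by simp⟩ }

/-- the number of classes of parameterized equivalence into which the parameterized squares that occur
in `s` fall -/
noncomputable def PS (s : List α) : ℕ :=
  ((Quotient.mk (peSetoid α)) '' {w | IsPSquare w ∧ w <:+: s}).ncard

end Pool.Agent.KS6_71.PSQ
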