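import Pool.Agent.KS6_71.PSQ.Binary

/-!
# Strings over `σ` letters with many classes of parameterized squares

Two runs of period `σ` which share `σ - 2` letters.
-/

open Finset

namespace Pool.Agent.KS6_71.PSQ

lemma fac_getElem? {α : Type*} (d : ℕ → α) (i l t : ℕ) (h : t < l) :
    (fac d i l)[t]? = some (d (i + t)) := by
  rw [List.getElem?_eq_getElem (by simpa using h), fac_getElem]

lemma fac_infix {α : Type*} (d : ℕ → α) (i l n : ℕ) (h : i + l ≤ n) :
    fac d i l <:+: fac d 0 n := by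
  rw [infix_iff]
  refine ⟨i, by simpa using h, ?_⟩
  apply List.ext_getElem
  · simp
    omega
  · intro t h1 h2
    rw [List.getElem_take, List.getElem_drop, fac_getElem, fac_getElem, zero_add]

/-- exchange of the two last letters -/
def tau (σ r : ℕ) : ℕ := if r = σ - 2 then σ - 1 else if r = σ - 1 then σ - 2 else r

lemma tau_lt (σ r : ℕ) (hσ : 2 ≤ σ) (hr : r < σ) : tau σ r < σ := by
  unfold tau
  split_ifs <;> omega

lemma tau_inj (σ r r' : ℕ) (hσ : 2 ≤ σ) (h : tau σ r = tau σ r') : r = r' := by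
  unfold tau at h
  split_ifs at h <;> omega

/-- the letters -/
def lett (σ A t : ℕ) : ℕ := if t < A then (t + (σ - 1) * A) % σ else tau σ ((t - A) % σ)

lemma lett_lt (σ A t : ℕ) (hσ : 2 ≤ σ) : lett σ A t < σ := by
  unfold lett
  split_ifs
  · exact Nat.mod_lt _ (by omega)
  · exact tau_lt σ _ hσ (Nat.mod_lt _ (by omega))

lemma lett_eq (σ A t : ℕ) (hσ : 2 ≤ σ) (h : t < A + (σ - 2)) :
    lett σ A t = (t + (σ - 1) * A) % σ := by
  unfold lett
  split_ifs with h1
  · rfl
  · have e1 : (t - A) % σ = t - A := Nat.mod_eq_of_lt (by omega)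
    rw [e1]
    have e2 : tau σ (t - A) = t - A := by
      unfold tau
      rw [if_neg (by omega), if_neg (by omega)]
    rw [e2]
    obtain ⟨r, rfl⟩ : ∃ r, σ = r + 1 := ⟨σ - 1, by omega⟩
    have e3 : t + (r + 1 - 1) * A = (t - A) + (r + 1) * A := by
      rw [Nat.add_sub_cancel, Nat.add_mul, one_mul]
      omega
    rw [e3, Nat.add_mul_mod_self_left, Nat.mod_eq_of_lt (by omega)]

/-- the letters as elements of `Fin σ` -/
def lf (σ A : ℕ) (hσ : 2 ≤ σ) (t : ℕ) : Fin σ := ⟨lett σ A t, lett_lt σ A t hσ⟩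

lemma lf_eq_left (σ A : ℕ) (hσ : 2 ≤ σ) (t t' : ℕ) (h : t < A + (σ - 2))
    (h' : t' < A + (σ - 2)) : lf σ A hσ t = lf σ A hσ t' ↔ t % σ = t' % σ := by
  unfold lf
  rw [Fin.mk.injEq, lett_eq σ A t hσ h, lett_eq σ A t' hσ h']
  constructor
  · intro he
    exact Nat.ModEq.add_right_cancel' _ (show t + (σ - 1) * A ≡ t' + (σ - 1) * A [MOD σ] from he)
  · intro he
    exact Nat.ModEq.add_right _ he

lemma lf_eq_right (σ A : ℕ) (hσ : 2 ≤ σ) (t t' : ℕ) (h : A ≤ t) (h' : A ≤ t') :
    lf σ A hσ t = lf σ A hσ t' ↔ t % σ = t' % σ := by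
  unfold lf
  rw [Fin.mk.injEq]
  unfold lett
  rw [if_neg (by omega), if_neg (by omega)]
  constructor
  · intro he
    have h1 := tau_inj σ _ _ hσ he
    have h2 : t - A + A ≡ t' - A + A [MOD σ] := Nat.ModEq.add_right _ h1
    rwa [Nat.sub_add_cancel h, Nat.sub_add_cancel h'] at h2
  · intro he
    have h2 : (t - A) + A ≡ (t' - A) + A [MOD σ] := by
      rw [Nat.sub_add_cancel h, Nat.sub_add_cancel h']
      exact he
    rw [Nat.ModEq.add_right_cancel' _ h2]

lemma lf_break (σ A : ℕ) (hσ : 2 ≤ σ) (hA : 2 ≤ A) :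
    lf σ A hσ (A - 2) ≠ lf σ A hσ (A - 2 + σ) := by
  intro he
  unfold lf at he
  rw [Fin.mk.injEq, lett_eq σ A (A - 2) hσ (by omega)] at he
  unfold lett at he
  rw [if_neg (by omega)] at he
  have e1 : A - 2 + σ - A = σ - 2 := by omega
  rw [e1, Nat.mod_eq_of_lt (by omega : σ - 2 < σ)] at he
  have e2 : tau σ (σ - 2) = σ - 1 := by
    unfold tau
    rw [if_pos rfl]
  rw [e2] at he
  obtain ⟨r, rfl⟩ : ∃ r, σ = r + 2 := ⟨σ - 2, by omega⟩
  obtain ⟨B, rfl⟩ : ∃ B, A = B + 2 := ⟨A - 2, by omega⟩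
  have e3 : B + 2 - 2 + (r + 2 - 1) * (B + 2) = r + (r + 2) * (B + 1) := by
    have : r + 2 - 1 = r + 1 := by omega
    rw [this, Nat.add_sub_cancel]
    ring
  rw [e3, Nat.add_mul_mod_self_left, Nat.mod_eq_of_lt (by omega)] at he
  omega

lemma mod_shift (σ x a b : ℕ) : (x + a) % σ = (x + b) % σ ↔ a % σ = b % σ := by
  constructor
  · intro h
    exact Nat.ModEq.add_left_cancel' x h
  · intro h
    exact Nat.ModEq.add_left x h

theorem family_aux (σ A n : ℕ) (hσ : 2 ≤ σ) (hA : σ ≤ A) (hn : 2 * A + (σ - 2) ≤ n) :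
    (A + 1 - σ) * (σ - 1) + (A + (σ - 2)) / 2 ≤ PS (fac (lf σ A hσ) 0 n) := by
  classical
  set d := lf σ A hσ with hd
  set I1 : Finset (ℕ × ℕ) := Icc σ A ×ˢ range (σ - 1) with hI1
  set I2 : Finset (ℕ × ℕ) := Icc 1 ((A + (σ - 2)) / 2) ×ˢ {σ - 1} with hI2
  have hdisj : Disjoint I1 I2 := by
    rw [Finset.disjoint_left]
    rintro ⟨k, c⟩ h1 h2
    simp only [hI1, hI2, mem_product, mem_range, mem_singleton] at h1 h2
    omega
  have hcard : (I1 ∪ I2).card = (A + 1 - σ) * (σ - 1) + (A + (σ - 2)) / 2 := by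
    rw [Finset.card_union_of_disjoint hdisj, hI1, hI2, Finset.card_product, Finset.card_product]
    simp
  rw [← hcard]
  let W : ℕ × ℕ → List (Fin σ) := fun q =>
    if q.2 < σ - 1 then fac d (A + q.2 - q.1) (2 * q.1) else fac d 0 (2 * q.1)
  have hW1 : ∀ k c, c < σ - 1 → W (k, c) = fac d (A + c - k) (2 * k) := by
    intro k c hc
    simp only [W]
    rw [if_pos hc]
  have hW2 : ∀ k, W (k, σ - 1) = fac d 0 (2 * k) := by
    intro k
    simp only [W]
    rw [if_neg (lt_irrefl _)]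
  apply le_PS _ (I1 ∪ I2) W
  · rintro ⟨k, c⟩ hq
    rw [mem_union] at hq
    rcases hq with hq | hq
    · simp only [hI1, mem_product, mem_Icc, mem_range] at hq
      obtain ⟨⟨hk1, hk2⟩, hc⟩ := hq
      rw [hW1 k c hc]
      refine ⟨?_, fac_infix _ _ _ _ (by omega)⟩
      apply psquare_of_half k (by omega) (by simp)
      intro a b ha hb
      rw [fac_getElem? _ _ _ _ (by omega), fac_getElem? _ _ _ _ (by omega),
        fac_getElem? _ _ _ _ (by omega), fac_getElem? _ _ _ _ (by omega), Option.some_inj,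
        Option.some_inj, lf_eq_left σ A hσ _ _ (by omega) (by omega),
        lf_eq_right σ A hσ _ _ (by omega) (by omega), mod_shift, ← add_assoc, ← add_assoc,
        mod_shift]
    · simp only [hI2, mem_product, mem_Icc, mem_singleton] at hq
      obtain ⟨⟨hk1, hk2⟩, rfl⟩ := hq
      rw [hW2]
      refine ⟨?_, fac_infix _ _ _ _ (by omega)⟩
      apply psquare_of_half k (by omega) (by simp)
      intro a b ha hb
      rw [fac_getElem? _ _ _ _ (by omega), fac_getElem? _ _ _ _ (by omega),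
        fac_getElem? _ _ _ _ (by omega), fac_getElem? _ _ _ _ (by omega), Option.some_inj,
        Option.some_inj, lf_eq_left σ A hσ _ _ (by omega) (by omega),
        lf_eq_left σ A hσ _ _ (by omega) (by omega), mod_shift, ← add_assoc, ← add_assoc,
        mod_shift]
  · -- the classes are different
    have hlen : ∀ k c, (W (k, c)).length = 2 * k := by
      intro k c
      simp only [W]
      split_ifs <;> simp
    -- two boundary windows
    have key1 : ∀ k c c', σ ≤ k → k ≤ A → c < c' → c' < σ - 1 → ¬ PEquiv (W (k, c)) (W (k, c')) := by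
      intro k c c' hk1 hk2 hcc hc' hP
      have h := hP.pat (k - c' - 2) (k - c' - 2 + σ)
      rw [hW1 k c (by omega), hW1 k c' hc', fac_getElem? _ _ _ _ (by omega),
        fac_getElem? _ _ _ _ (by omega), fac_getElem? _ _ _ _ (by omega),
        fac_getElem? _ _ _ _ (by omega), Option.some_inj, Option.some_inj,
        lf_eq_left σ A hσ _ _ (by omega) (by omega), ← add_assoc, Nat.add_mod_right] at h
      have h2 := h.1 rfl
      have e1 : A + c' - k + (k - c' - 2) = A - 2 := by omega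
      rw [e1] at h2
      have e2 : A + c' - k + (k - c' - 2 + σ) = A - 2 + σ := by omega
      rw [e2] at h2
      exact lf_break σ A hσ (by omega) h2
    -- a boundary window and a pure run
    have key2 : ∀ k c, σ ≤ k → k ≤ A → c < σ - 1 → 2 * k ≤ A + (σ - 2) →
        ¬ PEquiv (W (k, c)) (W (k, σ - 1)) := by
      intro k c hk1 hk2 hc hk3 hP
      have h := hP.pat (k - c - 2) (k - c - 2 + σ)
      rw [hW1 k c hc, hW2 k, fac_getElem? _ _ _ _ (by omega),
        fac_getElem? _ _ _ _ (by omega), fac_getElem? _ _ _ _ (by omega),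
        fac_getElem? _ _ _ _ (by omega), Option.some_inj, Option.some_inj,
        lf_eq_left σ A hσ (0 + (k - c - 2)) (0 + (k - c - 2 + σ)) (by omega) (by omega),
        ← add_assoc 0, Nat.add_mod_right] at h
      have h2 := h.2 rfl
      have e1 : A + c - k + (k - c - 2) = A - 2 := by omega
      have e2 : A + c - k + (k - c - 2 + σ) = A - 2 + σ := by omega
      rw [e1, e2] at h2
      exact lf_break σ A hσ (by omega) h2
    have hsymm : ∀ x y : List (Fin σ), PEquiv x y → PEquiv y x :=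
      fun x y h => (peSetoid (Fin σ)).iseqv.symm h
    rintro ⟨k, c⟩ hq ⟨k', c'⟩ hq' hP
    have hkk : k = k' := by
      have := hP.length_eq
      rw [hlen, hlen] at this
      omega
    subst hkk
    rw [mem_union] at hq hq'
    simp only [hI1, hI2, mem_product, mem_Icc, mem_range, mem_singleton] at hq hq'
    congr 1
    rcases hq with ⟨⟨hk1, hk2⟩, hc⟩ | ⟨⟨hk1, hk2⟩, rfl⟩
    · rcases hq' with ⟨_, hc'⟩ | ⟨⟨hk3, hk4⟩, rfl⟩
      · rcases lt_trichotomy c c' with h | h | h
        · exact absurd hP (key1 k c c' hk1 hk2 h hc')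
        · exact h
        · exact absurd (hsymm _ _ hP) (key1 k c' c hk1 hk2 h hc)
      · exact absurd hP (key2 k c hk1 hk2 hc (by omega))
    · rcases hq' with ⟨⟨hk3, hk4⟩, hc'⟩ | ⟨_, rfl⟩
      · exact absurd (hsymm _ _ hP) (key2 k c' hk3 hk4 hc' (by omega))
      · rfl

/-- the precise lower bound -/
theorem family (σ n : ℕ) (hσ : 2 ≤ σ) (hn : 3 * σ ≤ n) : ∃ s : List (Fin σ), s.length = n ∧
    (2 * σ - 1) * n + 13 * σ ≤ 4 * PS s + 6 * σ ^ 2 + 11 := by
  set A := (n + 2 - σ) / 2 with hA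
  have h := family_aux σ A n hσ (by omega) (by omega)
  refine ⟨fac (lf σ A hσ) 0 n, by simp, ?_⟩
  have h1 : n + 1 - σ ≤ 2 * A := by omega
  have h2 : 2 * ((A + (σ - 2)) / 2) ≥ A + σ - 3 := by omega
  obtain ⟨r, rfl⟩ : ∃ r, σ = r + 2 := ⟨σ - 2, by omega⟩
  obtain ⟨B, hB⟩ : ∃ B, A = B + (r + 2) := ⟨A - (r + 2), by omega⟩
  have e1 : A + 1 - (r + 2) = B + 1 := by omega
  have e2 : r + 2 - 1 = r + 1 := by omega
  have e3 : 2 * (r + 2) - 1 = 2 * r + 3 := by omega
  rw [e1, e2] at h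
  rw [e3]
  set P := PS (fac (lf (r + 2) A hσ) 0 n) with hP
  set Q := (A + (r + 2 - 2)) / 2 with hQ
  have h3 : n ≤ 2 * B + 3 * r + 5 := by omega
  have h4 : 2 * Q + 1 ≥ B + 2 * r + 2 := by omega
  nlinarith [Nat.zero_le r, Nat.zero_le B, mul_le_mul_of_nonneg_left h3 (Nat.zero_le (2 * r + 3))]

end Pool.Agent.KS6_71.PSQ
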