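import Pool.Agent.KS6_71.PSQ.Words

/-!
# The number of small circuits in the Rauzy graphs of a finite word
-/

open Finset

namespace Pool.Agent.KS6_71.PSQ

/-- A connected multigraph has at least as many edges as vertices, minus one. -/
lemma card_le_of_connected {β : Type*} [DecidableEq β] (V E : Finset β) (pre suf : β → β)
    (hV : V.Nonempty) (hpre : ∀ e ∈ E, pre e ∈ V) (hsuf : ∀ e ∈ E, suf e ∈ V)
    (hconn : ∀ x ∈ V, ∀ y ∈ V, Relation.EqvGen (fun a b => ∃ e ∈ E, a = pre e ∧ b = suf e) x y) :
    V.card ≤ E.card + 1 := by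
  classical
  let G : SimpleGraph V :=
    { Adj := fun x y => x ≠ y ∧ ∃ e ∈ E, (pre e = x ∧ suf e = y) ∨ (pre e = y ∧ suf e = x)
      symm := ⟨by
        rintro x y ⟨h1, e, he, h2⟩
        exact ⟨h1.symm, e, he, h2.symm⟩⟩
      loopless := ⟨fun x h => h.1 rfl⟩ }
  have hreach : ∀ x y : β, Relation.EqvGen (fun a b => ∃ e ∈ E, a = pre e ∧ b = suf e) x y →
      (x ∈ V ↔ y ∈ V) ∧ ∀ (hx : x ∈ V) (hy : y ∈ V), G.Reachable ⟨x, hx⟩ ⟨y, hy⟩ := by
    intro x y h
    induction h with
    | rel x y h =>
      obtain ⟨e, he, rfl, rfl⟩ := h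
      refine ⟨⟨fun _ => hsuf e he, fun _ => hpre e he⟩, ?_⟩
      intro hx hy
      by_cases hxy : (⟨pre e, hx⟩ : V) = ⟨suf e, hy⟩
      · rw [hxy]
      · exact SimpleGraph.Adj.reachable ⟨hxy, e, he, Or.inl ⟨rfl, rfl⟩⟩
    | refl x => exact ⟨Iff.rfl, fun _ _ => SimpleGraph.Reachable.refl _⟩
    | symm x y _ ih => exact ⟨ih.1.symm, fun hy hx => (ih.2 hx hy).symm⟩
    | trans x y z _ _ ih1 ih2 =>
      refine ⟨ih1.1.trans ih2.1, ?_⟩
      intro hx hz
      have hy : y ∈ V := ih1.1.1 hx
      exact (ih1.2 hx hy).trans (ih2.2 hy hz)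
  obtain ⟨v0, hv0⟩ := hV
  have hG : G.Connected := by
    have : Nonempty V := ⟨⟨v0, hv0⟩⟩
    refine ⟨?_⟩
    rintro ⟨x, hx⟩ ⟨y, hy⟩
    exact (hreach x y (hconn x hx y hy)).2 hx hy
  have h1 := hG.card_vert_le_card_edgeSet_add_one
  have h2 : Nat.card G.edgeSet ≤ E.card := by
    have h3 : ∀ s : G.edgeSet, ∃ e ∈ E, Sym2.map Subtype.val s.1 = s(pre e, suf e) := by
      rintro ⟨s, hs⟩
      induction s using Sym2.ind with
      | _ x y =>
        rw [SimpleGraph.mem_edgeSet] at hs
        obtain ⟨_, e, he, h⟩ := hs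
        refine ⟨e, he, ?_⟩
        rw [Sym2.map_mk]
        rcases h with ⟨h1, h2⟩ | ⟨h1, h2⟩
        · rw [h1, h2]
        · rw [h1, h2]
          exact Sym2.eq_swap
    choose f hf hfs using h3
    have hinj : Function.Injective (fun s : G.edgeSet => (⟨f s, hf s⟩ : E)) := by
      intro s t hst
      have hst' : f s = f t := congrArg Subtype.val hst
      have h4 : Sym2.map Subtype.val s.1 = Sym2.map Subtype.val t.1 := by
        rw [hfs, hfs, hst']
      exact Subtype.ext (Sym2.map.injective Subtype.val_injective h4)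
    have h5 := Nat.card_le_card_of_injective _ hinj
    rwa [Nat.card_eq_fintype_card (α := E), Fintype.card_coe] at h5
  have h3 : Nat.card V = V.card := by
    rw [Nat.card_eq_fintype_card, Fintype.card_coe]
  omega

variable {α : Type*} [LinearOrder α]

open Classical in
/-- the least edges of the small circuits of level `l` -/
noncomputable def M (d : ℕ → α) (m l : ℕ) : Finset (List α) :=
  (F d m l).filter fun e => ∃ (w : ℕ → α) (p : ℕ), IsLyn w p ∧ p ≤ l ∧ e = fac w 0 l ∧
    ∀ j, fac w j l ∈ F d m l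

lemma mem_M (d : ℕ → α) (m l : ℕ) (e : List α) : e ∈ M d m l ↔
    ∃ (w : ℕ → α) (p : ℕ), IsLyn w p ∧ p ≤ l ∧ e = fac w 0 l ∧ ∀ j, fac w j l ∈ F d m l := by
  classical
  unfold M
  rw [mem_filter]
  constructor
  · exact fun h => h.2
  · rintro ⟨w, p, h1, h2, rfl, h3⟩
    exact ⟨h3 0, w, p, h1, h2, rfl, h3⟩

lemma level (d : ℕ → α) (m l : ℕ) (hl : l + 1 ≤ m) :
    (F d m l).card + (M d m (l + 1)).card ≤ (F d m (l + 1)).card + 1 := by
  classical
  set E := F d m (l + 1) \ M d m (l + 1) with hE
  have hsub : M d m (l + 1) ⊆ F d m (l + 1) := by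
    unfold M
    exact Finset.filter_subset _ _
  have hcard : E.card + (M d m (l + 1)).card = (F d m (l + 1)).card :=
    Finset.card_sdiff_add_card_eq_card hsub
  set R := Relation.EqvGen (fun a b : List α => ∃ e ∈ E, a = e.dropLast ∧ b = e.tail) with hR
  have hequiv : Equivalence R := Relation.EqvGen.is_equivalence _
  -- all edges are inside classes
  have hedge : ∀ e ∈ F d m (l + 1), R e.dropLast e.tail := by
    by_contra hcon
    push Not at hcon
    set B := (F d m (l + 1)).filter fun e => ¬ R e.dropLast e.tail with hB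
    have hBne : B.Nonempty := by
      obtain ⟨e, he, h⟩ := hcon
      exact ⟨e, by rw [hB, mem_filter]; exact ⟨he, h⟩⟩
    set e := B.max' hBne with he
    have heB : e ∈ B := Finset.max'_mem _ _
    have heF : e ∈ F d m (l + 1) := (mem_filter.1 heB).1
    have heR : ¬ R e.dropLast e.tail := (mem_filter.1 heB).2
    have heM : e ∈ M d m (l + 1) := by
      by_contra hne
      exact heR (Relation.EqvGen.rel _ _ ⟨e, by rw [hE, mem_sdiff]; exact ⟨heF, hne⟩, rfl, rfl⟩)
    rw [mem_M] at heM
    obtain ⟨w, p, hw, hp, hew, hwF⟩ := heM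
    have hstep : ∀ j, 0 < j → j < p → R (fac w j l) (fac w (j + 1) l) := by
      intro j hj hjp
      by_contra hne
      have h1 : fac w j (l + 1) ∈ B := by
        rw [hB, mem_filter]
        refine ⟨hwF j, ?_⟩
        rw [fac_dropLast, fac_tail]
        exact hne
      have h2 := Finset.le_max' B _ h1
      have h3 := lyn_lt hw hp hj hjp
      rw [← hew] at h3
      exact absurd (lt_of_lt_of_le h3 h2) (lt_irrefl _)
    have hchain : ∀ j, 1 ≤ j → j ≤ p → R (fac w 1 l) (fac w j l) := by
      intro j hj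
      induction j, hj using Nat.le_induction with
      | base => intro _; exact hequiv.refl _
      | succ j hj ih =>
        intro hjp
        exact hequiv.trans (ih (by omega)) (hstep j (by omega) (by omega))
    apply heR
    rw [hew, fac_dropLast, fac_tail]
    have h1 := hchain p hw.1 le_rfl
    have h2 : fac w p l = fac w 0 l := by
      rw [fac_eq_iff]
      intro t _
      rw [add_comm p t, hw.2.1, zero_add]
    rw [h2] at h1
    exact hequiv.symm h1
  have hall : ∀ i, i + l ≤ m → R (fac d 0 l) (fac d i l) := by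
    intro i
    induction i with
    | zero => intro _; exact hequiv.refl _
    | succ i ih =>
      intro hi
      have h1 := hedge (fac d i (l + 1)) (by rw [mem_F]; exact ⟨i, by omega, rfl⟩)
      rw [fac_dropLast, fac_tail] at h1
      exact hequiv.trans (ih (by omega)) h1
  have hmain := card_le_of_connected (F d m l) E List.dropLast List.tail
    ⟨fac d 0 l, by rw [mem_F]; exact ⟨0, by omega, rfl⟩⟩
    (by
      intro e he
      rw [hE, mem_sdiff, mem_F] at he
      obtain ⟨⟨i, hi, rfl⟩, _⟩ := he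
      rw [fac_dropLast, mem_F]
      exact ⟨i, by omega, rfl⟩)
    (by
      intro e he
      rw [hE, mem_sdiff, mem_F] at he
      obtain ⟨⟨i, hi, rfl⟩, _⟩ := he
      rw [fac_tail, mem_F]
      exact ⟨i + 1, by omega, rfl⟩)
    (by
      intro x hx y hy
      rw [mem_F] at hx hy
      obtain ⟨i, hi, rfl⟩ := hx
      obtain ⟨j, hj, rfl⟩ := hy
      exact hequiv.trans (hequiv.symm (hall i hi)) (hall j hj))
  omega

lemma sum_levels (d : ℕ → α) (m : ℕ) : ∑ l ∈ range m, (M d m (l + 1)).card ≤ m := by
  have key : ∀ L ≤ m, ∑ l ∈ range L, (M d m (l + 1)).card + (F d m 0).card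
      ≤ (F d m L).card + L := by
    intro L
    induction L with
    | zero => intro _; simp
    | succ L ih =>
      intro hL
      rw [Finset.sum_range_succ]
      have h1 := ih (by omega)
      have h2 := level d m L hL
      omega
  have h1 := key m le_rfl
  have h2 : (F d m 0).card = 1 := by
    rw [Finset.card_eq_one]
    refine ⟨[], ?_⟩
    ext x
    rw [mem_F, Finset.mem_singleton]
    constructor
    · rintro ⟨i, _, rfl⟩
      simp [fac]
    · rintro rfl
      exact ⟨0, by omega, by simp [fac]⟩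
  have h3 : (F d m m).card = 1 := by
    rw [Finset.card_eq_one]
    refine ⟨fac d 0 m, ?_⟩
    ext x
    rw [mem_F, Finset.mem_singleton]
    constructor
    · rintro ⟨i, hi, rfl⟩
      have : i = 0 := by omega
      rw [this]
    · rintro rfl
      exact ⟨0, by omega, rfl⟩
  omega

end Pool.Agent.KS6_71.PSQ
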