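import Pool.Agent.KS6_71.PSQ.Code
import Pool.Agent.KS6_71.PSQ.Family

/-!
# Short strings
-/

open Finset

namespace Pool.Agent.KS6_71.PSQ

/-- a bound for the number of classes which depends only on the equalities of adjacent letters -/
def G (n : ℕ) (e : ℕ → Bool) : ℕ :=
  ((range (n - 1)).image e).card + ((range (n - 3)).filter fun i => e i = e (i + 2)).card +
    ((range (n - 5)).filter fun i => e i = e (i + 3) ∧ e (i + 1) = e (i + 4)).card

lemma G_congr (n : ℕ) (e e' : ℕ → Bool) (h : ∀ i < n - 1, e i = e' i) : G n e = G n e' := by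
  unfold G
  congr 1
  · congr 1
    · congr 1
      apply Finset.image_congr
      intro i hi
      simp only [coe_range, Set.mem_Iio] at hi
      exact h i hi
    · congr 1
      apply Finset.filter_congr
      intro i hi
      rw [mem_range] at hi
      rw [h i (by omega), h (i + 2) (by omega)]
  · congr 1
    apply Finset.filter_congr
    intro i hi
    rw [mem_range] at hi
    rw [h i (by omega), h (i + 3) (by omega), h (i + 1) (by omega), h (i + 4) (by omega)]

lemma G_lt_aux : ∀ n ∈ Icc 1 6, ∀ a b c d f : Bool,
    G n (fun i => [a, b, c, d, f].getD i false) < n := by decide +kernel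

lemma G_lt (n : ℕ) (h1 : 1 ≤ n) (h6 : n ≤ 6) (e : ℕ → Bool) : G n e < n := by
  have h := G_lt_aux n (by rw [mem_Icc]; exact ⟨h1, h6⟩) (e 0) (e 1) (e 2) (e 3) (e 4)
  rwa [G_congr n (fun i => [e 0, e 1, e 2, e 3, e 4].getD i false) e] at h
  intro i hi
  have : i < 5 := by omega
  interval_cases i <;> rfl

theorem PS_short {α : Type*} [Finite α] (s : List α) (hs : s ≠ []) (h6 : s.length ≤ 6) :
    PS s < s.length := by
  classical
  have hs0 : 0 < s.length := List.length_pos_iff.2 hs
  set n := s.length with hn
  set e := adj s with he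
  set C1 : Finset (ℕ × ℕ) := ((range (n - 1)).image e).image fun b => (1, b.toNat) with hC1
  set C2 : Finset (ℕ × ℕ) := ((range (n - 3)).filter fun i => e i = e (i + 2)).image
    fun i => (2, i) with hC2
  set C3 : Finset (ℕ × ℕ) := ((range (n - 5)).filter fun i => e i = e (i + 3) ∧
    e (i + 1) = e (i + 4)).image fun i => (3, i) with hC3
  have hcard : (C1 ∪ C2 ∪ C3).card ≤ G n e := by
    unfold G
    calc (C1 ∪ C2 ∪ C3).card ≤ (C1 ∪ C2).card + C3.card := Finset.card_union_le _ _
      _ ≤ C1.card + C2.card + C3.card := by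
        have := Finset.card_union_le C1 C2
        omega
      _ ≤ _ := by
        have i1 : C1.card ≤ ((range (n - 1)).image e).card := Finset.card_image_le
        have i2 : C2.card ≤ _ := Finset.card_image_le
        have i3 : C3.card ≤ _ := Finset.card_image_le
        omega
  have key : PS s ≤ (C1 ∪ C2 ∪ C3).card := by
    apply PS_le s _ (fun w c => w.length = 2 * c.1 ∧
      ((c.1 = 1 ∧ c.2 = (adj w 0).toNat) ∨ (c.1 ≠ 1 ∧ w = (s.drop c.2).take (2 * c.1))))
    · intro w hw hws
      obtain ⟨k, hk, hlen, hpat⟩ := psquare_half hw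
      obtain ⟨i, hi, hwi⟩ := (infix_iff w s).1 hws
      have hget := window_getElem? hwi
      have hadj : ∀ t, t + 1 < w.length → adj w t = adj s (i + t) := by
        intro t ht
        unfold adj
        rw [hget t (by omega), hget (t + 1) ht]
        rfl
      have hsq : ∀ a, a + 1 < k → e (i + a) = e (i + (k + a)) := by
        intro a ha
        rw [he, ← hadj a (by omega), ← hadj (k + a) (by omega)]
        unfold adj
        rw [decide_eq_decide]
        have := hpat a (a + 1) (by omega) ha
        rw [this]
        rfl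
      have hk3 : k ≤ 3 := by omega
      rcases (by omega : k = 1 ∨ k = 2 ∨ k = 3) with rfl | rfl | rfl
      · refine ⟨(1, (e i).toNat), ?_, hlen, Or.inl ⟨rfl, ?_⟩⟩
        · rw [mem_union, mem_union]
          left; left
          rw [hC1, mem_image]
          refine ⟨e i, ?_, rfl⟩
          rw [mem_image]
          exact ⟨i, by rw [mem_range]; omega, rfl⟩
        · have := hadj 0 (by omega)
          rw [this]
          rfl
      · refine ⟨(2, i), ?_, hlen, Or.inr ⟨by norm_num, ?_⟩⟩
        · rw [mem_union, mem_union]
          left; right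
          rw [hC2, mem_image]
          refine ⟨i, ?_, rfl⟩
          rw [mem_filter, mem_range]
          exact ⟨by omega, hsq 0 (by omega)⟩
        · rw [← hlen]
          exact hwi
      · refine ⟨(3, i), ?_, hlen, Or.inr ⟨by norm_num, ?_⟩⟩
        · rw [mem_union]
          right
          rw [hC3, mem_image]
          refine ⟨i, ?_, rfl⟩
          rw [mem_filter, mem_range]
          exact ⟨by omega, hsq 0 (by omega), hsq 1 (by omega)⟩
        · rw [← hlen]
          exact hwi
    · rintro w w' ⟨k, c⟩ _ _ _ _ ⟨hl, h⟩ ⟨hl', h'⟩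
      simp only at hl h hl' h'
      rcases h with ⟨rfl, h⟩ | ⟨hk, h⟩
      · rcases h' with ⟨_, h'⟩ | ⟨hk', _⟩
        · have h3 : adj w 0 = adj w' 0 := by
            have : (adj w 0).toNat = (adj w' 0).toNat := by rw [← h, h']
            revert this
            cases adj w 0 <;> cases adj w' 0 <;> simp
          unfold adj at h3
          rw [decide_eq_decide] at h3
          apply pequiv_of_pat (by omega)
          intro a b ha hb
          have ha' : a = 0 ∨ a = 1 := by omega
          have hb' : b = 0 ∨ b = 1 := by omega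
          rcases ha' with rfl | rfl <;> rcases hb' with rfl | rfl
          · simp
          · exact h3
          · rw [eq_comm, eq_comm (a := w'[1]?)]
            exact h3
          · simp
        · exact absurd rfl hk'
      · rcases h' with ⟨rfl, _⟩ | ⟨_, h'⟩
        · exact absurd rfl hk
        · rw [h, h']
          exact ⟨1, by simp⟩
  have := G_lt n (by omega) h6 e
  omega

set_option maxRecDepth 100000 in
lemma seven_aux : ∀ b c d e f g : Fin 3, (C ([0, b, c, d, e, f, g] : List (Fin 3))).card < 7 := by
  decide +kernel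

theorem PS_seven (s : List (Fin 3)) (hs : s.length = 7) : PS s < 7 := by
  match s, hs with
  | [a, b, c, d, e, f, g], _ =>
    have h1 := PS_le_map [a, b, c, d, e, f, g] (Equiv.swap a 0) (Equiv.injective _)
    have h2 := seven_aux (Equiv.swap a 0 b) (Equiv.swap a 0 c) (Equiv.swap a 0 d)
      (Equiv.swap a 0 e) (Equiv.swap a 0 f) (Equiv.swap a 0 g)
    rw [← PS_eq] at h2
    simp only [List.map_cons, List.map_nil, Equiv.swap_apply_left] at h1
    exact lt_of_le_of_lt h1 h2

/-! ### strings with many classes -/

set_option maxRecDepth 100000 in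
lemma four_letters : 7 ≤ (C ([0, 1, 2, 0, 2, 1, 3] : List (Fin 4))).card := by decide +kernel

/-- a string of length `n` over three letters with at least `v` classes, given by a longer one -/
lemma ext_string (s : List (Fin 3)) (v n : ℕ) (h : v ≤ (C s).card) (hs : s.length ≤ n)
    (hn : n ≤ v) : ∃ t : List (Fin 3), t.length = n ∧ n ≤ PS t := by
  refine ⟨s ++ List.replicate (n - s.length) 0, ?_, ?_⟩
  · rw [List.length_append, List.length_replicate]
    omega
  · have h1 := PS_mono s (s ++ List.replicate (n - s.length) 0) (List.prefix_append _ _).isInfix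
    rw [PS_eq s] at h1
    omega

set_option maxRecDepth 100000 in
theorem ternary (n : ℕ) (hn : 8 ≤ n) : ∃ t : List (Fin 3), t.length = n ∧ n ≤ PS t := by
  rcases Nat.lt_or_ge n 26 with h | h
  · rcases Nat.lt_or_ge n 13 with h13 | h13
    · interval_cases n
      · exact ext_string [0, 1, 0, 2, 1, 2, 1, 0] 8 8 (by decide +kernel) (by simp) le_rfl
      · exact ext_string [0, 0, 1, 0, 2, 1, 2, 1, 0] 9 9 (by decide +kernel) (by simp) le_rfl
      · exact ext_string [0, 0, 1, 0, 1, 2, 0, 2, 0, 1] 10 10 (by decide +kernel) (by simp) le_rfl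
      · exact ext_string [0, 0, 1, 0, 1, 0, 1, 2, 1, 2, 1] 11 11 (by decide +kernel) (by simp)
          le_rfl
      · exact ext_string [0, 0, 1, 0, 0, 1, 0, 2, 1, 2, 1, 0] 12 12 (by decide +kernel) (by simp)
          le_rfl
    · rcases Nat.lt_or_ge n 15 with h15 | h15
      · exact ext_string [0, 1, 0, 1, 2, 1, 2, 1, 0, 2, 0, 2, 1] 14 n (by decide +kernel)
          (by simp; omega) (by omega)
      · rcases Nat.lt_or_ge n 16 with h16 | h16
        · exact ext_string [0, 1, 2, 0, 1, 2, 0, 2, 1, 0, 2, 1, 0, 2, 1] 15 n (by decide +kernel)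
            (by simp; omega) (by omega)
        · rcases Nat.lt_or_ge n 19 with h19 | h19
          · exact ext_string [0, 2, 0, 1, 2, 1, 2, 0, 1, 2, 1, 0, 2, 1, 0, 1] 18 n
              (by decide +kernel) (by simp; omega) (by omega)
          · rcases Nat.lt_or_ge n 22 with h22 | h22
            · exact ext_string [2, 1, 2, 0, 2, 0, 1, 2, 1, 2, 0, 1, 2, 1, 0, 2, 1, 0, 0] 21 n
                (by decide +kernel) (by simp; omega) (by omega)
            · exact ext_string [2, 0, 2, 0, 2, 0, 1, 0, 1, 0, 2, 1, 2, 1, 0, 2, 1, 2, 0, 1, 2, 0]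
                26 n (by decide +kernel) (by simp; omega) (by omega)
  · obtain ⟨s, hs, h1⟩ := family 3 n (by norm_num) (by omega)
    refine ⟨s, hs, ?_⟩
    omega

end Pool.Agent.KS6_71.PSQ
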