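import Mathlib

/-!
# Factors of words, Lyndon representatives of circuits in Rauzy graphs
-/

open Finset

namespace Pool.Agent.KS6_71.PSQ

variable {α : Type*}

/-- the factor of length `l` at position `i` of the sequence `d` -/
def fac (d : ℕ → α) (i l : ℕ) : List α := (List.range l).map fun t => d (i + t)

@[simp] lemma fac_length (d : ℕ → α) (i l : ℕ) : (fac d i l).length = l := by
  simp [fac]

lemma fac_eq_iff (d e : ℕ → α) (i j l : ℕ) :
    fac d i l = fac e j l ↔ ∀ t < l, d (i + t) = e (j + t) := by
  unfold fac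
  rw [List.map_inj_left]
  simp

lemma fac_getElem (d : ℕ → α) (i l t : ℕ) (h : t < (fac d i l).length) :
    (fac d i l)[t] = d (i + t) := by
  simp [fac]

lemma fac_tail (d : ℕ → α) (i l : ℕ) : (fac d i (l + 1)).tail = fac d (i + 1) l := by
  apply List.ext_getElem
  · simp
  · intro t h1 h2
    simp only [List.getElem_tail, fac_getElem]
    congr 1
    omega

lemma fac_dropLast (d : ℕ → α) (i l : ℕ) : (fac d i (l + 1)).dropLast = fac d i l := by
  apply List.ext_getElem
  · simp
  · intro t h1 h2
    simp only [List.getElem_dropLast, fac_getElem]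

section
variable [DecidableEq α]

/-- the factors of length `l` of the word `d 0, …, d (m - 1)` -/
def F (d : ℕ → α) (m l : ℕ) : Finset (List α) := (range (m + 1 - l)).image fun i => fac d i l

lemma mem_F (d : ℕ → α) (m l : ℕ) (x : List α) :
    x ∈ F d m l ↔ ∃ i, i + l ≤ m ∧ fac d i l = x := by
  unfold F
  simp only [mem_image, mem_range]
  constructor
  · rintro ⟨i, hi, h⟩
    exact ⟨i, by omega, h⟩
  · rintro ⟨i, hi, h⟩
    exact ⟨i, by omega, h⟩

lemma F_length {d : ℕ → α} {m l : ℕ} {x : List α} (h : x ∈ F d m l) : x.length = l := by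
  rw [mem_F] at h
  obtain ⟨i, _, rfl⟩ := h
  simp

end

lemma per_mod {w : ℕ → α} {p : ℕ} (h : ∀ i, w (i + p) = w i) (i : ℕ) : w (i % p) = w i := by
  have key : ∀ q r : ℕ, w (r + p * q) = w r := by
    intro q
    induction q with
    | zero => intro r; simp
    | succ q ih =>
      intro r
      have : r + p * (q + 1) = (r + p * q) + p := by ring
      rw [this, h, ih]
  conv_rhs => rw [← Nat.mod_add_div i p]
  rw [key]

lemma per_congr {w : ℕ → α} {p : ℕ} (h : ∀ i, w (i + p) = w i) {i j : ℕ} (hij : i % p = j % p) :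
    w i = w j := by
  rw [← per_mod h i, ← per_mod h j, hij]

/-- `w` is a periodic sequence with period `p` which is strictly smaller than its proper shifts: the
block of length `p` is a Lyndon word. -/
def IsLyn [LT α] (w : ℕ → α) (p : ℕ) : Prop :=
  0 < p ∧ (∀ i, w (i + p) = w i) ∧
    ∀ j, 0 < j → j < p → ∃ i < p, (∀ i' < i, w i' = w (i' + j)) ∧ w i < w (i + j)

/-- two Lyndon representatives with the same prefix, which is at least as long as the periods, are
equal -/
lemma lyn_unique_aux [LinearOrder α] {w w' : ℕ → α} {p p' l : ℕ} (hw : IsLyn w p)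
    (hw' : IsLyn w' p') (hp : p ≤ l) (hp' : p' ≤ l) (he : ∀ t < l, w t = w' t) : ¬ p < p' := by
  intro hlt
  obtain ⟨hp0, hper, _⟩ := hw
  obtain ⟨_, hper', hlyn⟩ := hw'
  -- `w'` has the period `p` on its block
  have h1 : ∀ i, i + p < p' → w' i = w' (i + p) := by
    intro i hi
    rw [← he i (by omega), ← he (i + p) (by omega), hper]
  obtain ⟨i1, hi1, ha1, hb1⟩ := hlyn p hp0 hlt
  obtain ⟨i2, hi2, ha2, hb2⟩ := hlyn (p' - p) (by omega) (by omega)
  have hi1' : p' - p ≤ i1 := by
    by_contra hcon
    rw [h1 i1 (by omega)] at hb1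
    exact lt_irrefl _ hb1
  set a := i1 - (p' - p) with ha
  have e1 : i1 = a + (p' - p) := by omega
  have e2 : i1 + p = a + p' := by omega
  rw [e2, hper', e1] at hb1
  -- `w' (a + (p' - p)) < w' a`, equality before
  have hbefore : ∀ i' < a, w' (i' + (p' - p)) = w' i' := by
    intro i' hi'
    have := ha1 (i' + (p' - p)) (by omega)
    rw [this]
    have e : i' + (p' - p) + p = i' + p' := by omega
    rw [e, hper']
  rcases lt_trichotomy a i2 with h | h | h
  · have := ha2 a h
    rw [← this] at hb1
    exact lt_irrefl _ hb1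
  · subst h
    exact lt_asymm hb1 hb2
  · have := hbefore i2 h
    rw [this] at hb2
    exact lt_irrefl _ hb2

lemma lyn_unique [LinearOrder α] {w w' : ℕ → α} {p p' l : ℕ} (hw : IsLyn w p)
    (hw' : IsLyn w' p') (hp : p ≤ l) (hp' : p' ≤ l) (he : fac w 0 l = fac w' 0 l) :
    p = p' ∧ w = w' := by
  rw [fac_eq_iff] at he
  have he' : ∀ t < l, w t = w' t := by
    intro t ht
    simpa using he t ht
  have h1 := lyn_unique_aux hw hw' hp hp' he'
  have h2 := lyn_unique_aux hw' hw hp' hp (fun t ht => (he' t ht).symm)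
  have h3 : p = p' := by omega
  subst h3
  refine ⟨rfl, ?_⟩
  funext i
  rw [← per_mod hw.2.1 i, ← per_mod hw'.2.1 i]
  apply he'
  have := Nat.mod_lt i hw.1
  omega

/-- the shifts of a Lyndon representative are larger -/
lemma lyn_lt [LinearOrder α] {w : ℕ → α} {p l j : ℕ} (hw : IsLyn w p) (hp : p ≤ l) (hj : 0 < j)
    (hjp : j < p) : fac w 0 l < fac w j l := by
  obtain ⟨i, hi, ha, hb⟩ := hw.2.2 j hj hjp
  rw [List.lt_iff_exists]
  right
  refine ⟨i, by simpa using (by omega : i < l), by simpa using (by omega : i < l), ?_, ?_⟩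
  · intro t ht
    rw [fac_getElem, fac_getElem]
    rw [zero_add, add_comm j t]
    exact ha t ht
  · rw [fac_getElem, fac_getElem, zero_add, add_comm j i]
    exact hb

/-- every purely periodic sequence is a shift of a Lyndon representative -/
lemma exists_lyn [LinearOrder α] (v : ℕ → α) (k : ℕ) (hk : 0 < k) (hv : ∀ t, v (t + k) = v t) :
    ∃ (w : ℕ → α) (p j : ℕ), IsLyn w p ∧ j < p ∧ p ∣ k ∧ ∀ t, v t = w (j + t) := by
  classical
  have hex : ∃ p, 0 < p ∧ ∀ t, v (t + p) = v t := ⟨k, hk, hv⟩
  set p := Nat.find hex with hpdef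
  obtain ⟨hp0, hp⟩ := Nat.find_spec hex
  rw [← hpdef] at hp0 hp
  have hmin : ∀ q, 0 < q → q < p → ¬ ∀ t, v (t + q) = v t := by
    intro q hq0 hq hcon
    exact Nat.find_min hex hq ⟨hq0, hcon⟩
  have hdvd : p ∣ k := by
    by_contra hcon
    have hr : 0 < k % p := by
      rcases Nat.eq_zero_or_pos (k % p) with h | h
      · exact absurd (Nat.dvd_of_mod_eq_zero h) hcon
      · exact h
    apply hmin (k % p) hr (Nat.mod_lt _ hp0)
    intro t
    rw [← hv t]
    apply per_congr hp
    simp
  obtain ⟨j0, hj0, hj0min⟩ := Finset.exists_min_image (range p) (fun j => fac v j p)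
    ⟨0, by simpa using hp0⟩
  rw [mem_range] at hj0
  refine ⟨fun t => v (j0 + t), p, (p - j0) % p, ⟨hp0, ?_, ?_⟩, Nat.mod_lt _ hp0, hdvd, ?_⟩
  · intro i
    change v (j0 + (i + p)) = v (j0 + i)
    rw [← add_assoc, hp]
  · intro j hj hjp
    have hle : fac v j0 p ≤ fac v (j0 + j) p := by
      have h1 := hj0min ((j0 + j) % p) (by simpa using Nat.mod_lt _ hp0)
      have h2 : fac v ((j0 + j) % p) p = fac v (j0 + j) p := by
        rw [fac_eq_iff]
        intro t _
        apply per_congr hp
        simp
      rwa [h2] at h1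
    have hne : fac v j0 p ≠ fac v (j0 + j) p := by
      intro he
      rw [fac_eq_iff] at he
      apply hmin j hj hjp
      intro t
      -- move to the block at `j0`
      set r := (t + (p - j0)) % p with hr
      have hrp : r < p := Nat.mod_lt _ hp0
      have e1 : v t = v (j0 + r) := by
        apply per_congr hp
        rw [hr, Nat.add_mod_mod]
        have : j0 + (t + (p - j0)) = t + p := by omega
        rw [this, Nat.add_mod_right]
      have e2 : v (t + j) = v (j0 + j + r) := by
        apply per_congr hp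
        rw [hr, Nat.add_mod_mod]
        have : j0 + j + (t + (p - j0)) = t + j + p := by omega
        rw [this, Nat.add_mod_right]
      rw [e1, e2]
      exact (he r hrp).symm
    have hlt := lt_of_le_of_ne hle hne
    rw [List.lt_iff_exists] at hlt
    rcases hlt with ⟨_, h2⟩ | ⟨i, h1, h2, h3, h4⟩
    · simp at h2
    · rw [fac_length] at h1
      refine ⟨i, h1, ?_, ?_⟩
      · intro i' hi'
        have := h3 i' hi'
        rw [fac_getElem, fac_getElem] at this
        change v (j0 + i') = v (j0 + (i' + j))
        rw [this]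
        congr 1
        omega
      · rw [fac_getElem, fac_getElem] at h4
        change v (j0 + i) < v (j0 + (i + j))
        have e : j0 + (i + j) = j0 + j + i := by omega
        rw [e]
        exact h4
  · intro t
    change v t = v (j0 + ((p - j0) % p + t))
    apply per_congr hp
    have e : j0 + ((p - j0) % p + t) = (p - j0) % p + (j0 + t) := by omega
    rw [e, Nat.mod_add_mod]
    have : p - j0 + (j0 + t) = t + p := by omega
    rw [this, Nat.add_mod_right]

end Pool.Agent.KS6_71.PSQ
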